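import Pool.Agent.Q78.Parry.Exist

open MeasureTheory Q78.Parry

/-- Q1: there is a primitive random substitution on `{a, b}` whose frequency measure is the Parry
measure of the golden mean shift. -/
theorem Pool.Agent.Results.MP_3f28ca_an.ParryFrequencyMeasure.result :
    ∃ θ : RandSubst, θ.Primitive ∧
      ∃ μ : Measure (ℤ → Bool), IsParryMeasure μ ∧ IsFrequencyMeasure θ μ := by
  refine ⟨theta, theta_primitive, parry, parry_isParry, ?_, parry_shift,
    exists_run theta, ?_⟩
  · have h := parry_isParry 0 []
    have h1 : cyl 0 [] = Set.univ := by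
      ext x
      simp [cyl]
    rw [h1] at h
    refine ⟨?_⟩
    rw [h]
    simp [weight]
  · intro α Ω _ P X hX v
    have h := ae_freq hX v
    have h1 : (parry (cyl 0 v)).toReal = weight v := by
      rw [parry_isParry 0 v, ENNReal.toReal_ofReal (weight_nonneg v)]
    rw [h1]
    exact h
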